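import Pool.Agent.K1H70.KQ.Stm

set_option autoImplicit false

/-! # Equivariance of the determinants of a framed quiver -/

namespace Pool.Agent.K1H37.KQ

open Pool.Agent.K1H70.KR Pool.Agent.K1H70.KQ

section

variable {R : Type} [CommRing R] {I α ρ E : Type} [DecidableEq I] [Fintype E]
  {Q : Qv I α ρ} {vt : E → I}

theorem wv_nil (x : U α ρ E → R) (l : ρ) : wv x [] l = mv x l := rfl

theorem wv_cons (x : U α ρ E → R) (b : α) (w : List α) (l : ρ) :
    wv x (b :: w) l = (mA x b).mulVec (wv x w l) := rfl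

omit [Fintype E] in
theorem mA_zero (x : VQ Q vt → R) (b : α) (a c : E) (h : ¬ (vt a = Q.t b ∧ vt c = Q.s b)) :
    mA (ext x) b a c = 0 := by
  change ext x (a, Sum.inl (b, c)) = 0
  unfold ext
  rw [dif_neg]
  exact h

omit [Fintype E] in
theorem mv_zero (x : VQ Q vt → R) (l : ρ) (a : E) (h : ¬ vt a = Q.ν l) :
    mv (ext x) l a = 0 := by
  change ext x (a, Sum.inr l) = 0
  unfold ext
  rw [dif_neg]
  exact h

theorem mA_act (G Gi : Matrix E E R) (u : α → R) (z : ρ → R) (x : VQ Q vt → R)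
    (hG : Blk vt G) (hGi : Blk vt Gi) (b : α) :
    mA (ext (act G Gi u z x)) b = u b • (G * mA (ext x) b * Gi) := by
  ext a c
  by_cases h : vt a = Q.t b ∧ vt c = Q.s b
  · change ext (act G Gi u z x) (a, Sum.inl (b, c)) = _
    unfold ext
    rw [dif_pos (show ok Q vt (a, Sum.inl (b, c)) from h)]
    rfl
  · rw [mA_zero _ b a c h, Matrix.smul_apply, Matrix.mul_apply, Finset.sum_eq_zero, smul_zero]
    intro c' _
    by_cases hc : vt c' = vt c
    · rw [Matrix.mul_apply, Finset.sum_eq_zero, zero_mul]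
      intro a' _
      by_cases ha : vt a = vt a'
      · rw [mA_zero, mul_zero]
        rw [← ha, hc]
        exact h
      · rw [hG a a' ha, zero_mul]
    · rw [hGi c' c hc, mul_zero]

theorem mv_act (G Gi : Matrix E E R) (u : α → R) (z : ρ → R) (x : VQ Q vt → R)
    (hG : Blk vt G) (l : ρ) :
    mv (ext (act G Gi u z x)) l = z l • G.mulVec (mv (ext x) l) := by
  ext a
  by_cases h : vt a = Q.ν l
  · change ext (act G Gi u z x) (a, Sum.inr l) = _
    unfold ext
    rw [dif_pos (show ok Q vt (a, Sum.inr l) from h)]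
    rfl
  · rw [mv_zero _ l a h, Pi.smul_apply]
    change 0 = z l • ∑ c, G a c * mv (ext x) l c
    rw [Finset.sum_eq_zero, smul_zero]
    intro c _
    by_cases hc : vt a = vt c
    · rw [mv_zero, mul_zero]
      rw [← hc]
      exact h
    · rw [hG a c hc, zero_mul]

theorem wv_act [DecidableEq E] (G Gi : Matrix E E R) (u : α → R) (z : ρ → R) (x : VQ Q vt → R)
    (h : Gi * G = 1) (hG : Blk vt G) (hGi : Blk vt Gi) (w : List α) (l : ρ) :
    wv (ext (act G Gi u z x)) w l = ((w.map u).prod * z l) • G.mulVec (wv (ext x) w l) := by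
  induction w with
  | nil => rw [wv_nil, wv_nil, mv_act G Gi u z x hG, List.map_nil, List.prod_nil, one_mul]
  | cons b w ih =>
    rw [wv_cons, wv_cons, ih, mA_act G Gi u z x hG hGi, Matrix.mulVec_smul, Matrix.smul_mulVec,
      Matrix.mulVec_mulVec, Matrix.mul_assoc (G * mA (ext x) b), h, Matrix.mul_one,
      ← Matrix.mulVec_mulVec, smul_smul, List.map_cons, List.prod_cons]
    congr 1
    ring

theorem wv_scale [DecidableEq ρ] (x y : U α ρ E → R) (j : ρ) (c : R)
    (h1 : ∀ b, mA y b = mA x b)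
    (h2 : mv y j = c • mv x j) (h3 : ∀ l, l ≠ j → mv y l = mv x l) (w : List α) (l : ρ) :
    wv y w l = (if l = j then c else 1) • wv x w l := by
  induction w with
  | nil =>
    rw [wv_nil, wv_nil]
    by_cases h : l = j
    · rw [if_pos h, h, h2]
    · rw [if_neg h, h3 l h, one_smul]
  | cons b w ih => rw [wv_cons, wv_cons, ih, h1, Matrix.mulVec_smul]

end

theorem dq_act {R : Type} [CommRing R] {I α ρ E : Type} [DecidableEq I]
    [Fintype E] [DecidableEq E] (Q : Qv I α ρ) (vt : E → I) (ω : α → ℕ) (d : ρ → ℕ)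
    (e : TQ Q ω d ≃ E) (G Gi : Matrix E E R) (u : α → R) (z : ρ → R) (x : VQ Q vt → R)
    (h : Gi * G = 1) (hG : Blk vt G) (hGi : Blk vt Gi) (i : I) :
    dq Q vt ω d e i (act G Gi u z x) =
      (∏ y : {y : E // vt y = i}, (((e.symm y.1).1.1.1.map u).prod * z (e.symm y.1).1.1.2)) *
        (dq Q vt ω d e i x * dG vt G i) := by
  have h1 : (Matrix.of fun a c : {y : E // vt y = i} =>
      wv (ext (act G Gi u z x)) (e.symm a.1).1.1.1 (e.symm a.1).1.1.2 c.1) =
      Matrix.of fun a c : {y : E // vt y = i} =>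
        (fun y : {y : E // vt y = i} =>
          (((e.symm y.1).1.1.1.map u).prod * z (e.symm y.1).1.1.2)) a *
        ((Matrix.of fun a c : {y : E // vt y = i} =>
          wv (ext x) (e.symm a.1).1.1.1 (e.symm a.1).1.1.2 c.1) *
          (Matrix.of fun a c : {y : E // vt y = i} => G a.1 c.1).transpose) a c := by
    ext a c
    rw [Matrix.of_apply, Matrix.of_apply, wv_act G Gi u z x h hG hGi, Pi.smul_apply, smul_eq_mul]
    congr 1
    rw [Matrix.mul_apply]
    change ∑ b, G c.1 b * wv (ext x) (e.symm a.1).1.1.1 (e.symm a.1).1.1.2 b =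
      ∑ b : {y : E // vt y = i}, wv (ext x) (e.symm a.1).1.1.1 (e.symm a.1).1.1.2 b.1 * G c.1 b.1
    rw [← Finset.sum_subtype (Finset.univ.filter (fun b => vt b = i)) (fun b => by simp)
      (fun b => wv (ext x) (e.symm a.1).1.1.1 (e.symm a.1).1.1.2 b * G c.1 b)]
    rw [← Finset.sum_filter_of_ne (p := fun b => vt b = i)]
    · exact Finset.sum_congr rfl fun b _ => mul_comm _ _
    · intro b _ hb
      by_contra hne
      apply hb
      rw [hG c.1 b (fun h' => hne (by rw [← h', c.2])), zero_mul]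
  unfold dq dG
  rw [h1, Matrix.det_mul_column, Matrix.det_mul, Matrix.det_transpose]

theorem dq_scale {R : Type} [CommRing R] {I α ρ E : Type} [DecidableEq I]
    [Fintype E] [DecidableEq E] (Q : Qv I α ρ) (vt : E → I) (ω : α → ℕ) (d : ρ → ℕ)
    (e : TQ Q ω d ≃ E) (he : ∀ τ, vt (e τ) = τ.1.2) (x y : VQ Q vt → R) (j : ρ) (c : R)
    (h1 : ∀ v : VQ Q vt, v.1.2 ≠ Sum.inr j → y v = x v)
    (h2 : ∀ v : VQ Q vt, v.1.2 = Sum.inr j → y v = c * x v) (i : I) :
    dq Q vt ω d e i y = c ^ nwq Q ω (Q.ν j) i (d j) * dq Q vt ω d e i x := by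
  classical
  have hA : ∀ b, mA (ext y) b = mA (ext x) b := by
    intro b
    ext a c'
    change ext y (a, Sum.inl (b, c')) = ext x (a, Sum.inl (b, c'))
    unfold ext
    by_cases h : ok Q vt (a, Sum.inl (b, c'))
    · rw [dif_pos h, dif_pos h, h1]
      simp
    · rw [dif_neg h, dif_neg h]
  have hv : mv (ext y) j = c • mv (ext x) j := by
    ext a
    change ext y (a, Sum.inr j) = c * ext x (a, Sum.inr j)
    unfold ext
    by_cases h : ok Q vt (a, Sum.inr j)
    · rw [dif_pos h, dif_pos h, h2]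
      rfl
    · rw [dif_neg h, dif_neg h, mul_zero]
  have hv' : ∀ l, l ≠ j → mv (ext y) l = mv (ext x) l := by
    intro l hl
    ext a
    change ext y (a, Sum.inr l) = ext x (a, Sum.inr l)
    unfold ext
    by_cases h : ok Q vt (a, Sum.inr l)
    · rw [dif_pos h, dif_pos h, h1]
      intro h'
      exact hl (Sum.inr_injective h')
    · rw [dif_neg h, dif_neg h]
  have h4 : (Matrix.of fun a c' : {y : E // vt y = i} =>
      wv (ext y) (e.symm a.1).1.1.1 (e.symm a.1).1.1.2 c'.1) =
      Matrix.of fun a c' : {y : E // vt y = i} =>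
        (fun a : {y : E // vt y = i} => if (e.symm a.1).1.1.2 = j then c else 1) a *
        (Matrix.of fun a c' : {y : E // vt y = i} =>
          wv (ext x) (e.symm a.1).1.1.1 (e.symm a.1).1.1.2 c'.1) a c' := by
    ext a c'
    rw [Matrix.of_apply, Matrix.of_apply, wv_scale (ext x) (ext y) j c hA hv hv']
    rfl
  unfold dq
  rw [h4, Matrix.det_mul_column]
  congr 1
  rw [Finset.prod_ite, Finset.prod_const, Finset.prod_const_one, mul_one]
  congr 1
  unfold nwq
  rw [← Fintype.card_subtype, ← Nat.card_eq_fintype_card]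
  have hend : ∀ y : E, (e.symm y).1.2 = vt y := by
    intro y
    rw [← he, Equiv.apply_symm_apply]
  refine Nat.card_congr ⟨fun k => ⟨(e.symm k.1.1).1.1.1, by
      have h5 := (e.symm k.1.1).2
      rwa [k.2, hend, k.1.2] at h5⟩,
    fun w => ⟨⟨e ⟨((w.1, j), i), w.2⟩, he _⟩, by simp⟩, fun k => ?_, fun w => ?_⟩
  · apply Subtype.ext
    apply Subtype.ext
    have h5 : (⟨(((e.symm k.1.1).1.1.1, j), i), by
        have h5 := (e.symm k.1.1).2
        rwa [k.2, hend, k.1.2] at h5⟩ : TQ Q ω d) = e.symm k.1.1 := by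
      apply Subtype.ext
      refine Prod.ext (Prod.ext rfl k.2.symm) ?_
      change i = (e.symm k.1.1).1.2
      rw [hend, k.1.2]
    change e _ = k.1.1
    rw [h5, Equiv.apply_symm_apply]
  · apply Subtype.ext
    simp

theorem t_ACTq : S_ACTq := by
  intro R _ I α ρ E _ _ _ _ Q vt ω d e he a
  classical
  refine ⟨fun G Gi u z x h hG hGi => ?_, fun x y j c h1 h2 => ?_⟩
  · unfold FQ chq
    have hp : ∏ y : E, (((e.symm y).1.1.1.map u).prod * z (e.symm y).1.1.2) ^ a (vt y) =
        ∏ i : I, (∏ y : {y : E // vt y = i},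
          (((e.symm y.1).1.1.1.map u).prod * z (e.symm y.1).1.1.2)) ^ a i := by
      rw [← Fintype.prod_fiberwise vt]
      refine Finset.prod_congr rfl fun i _ => ?_
      rw [← Finset.prod_pow]
      refine Finset.prod_congr rfl fun y _ => ?_
      rw [y.2]
    rw [hp, ← Finset.prod_mul_distrib, ← Finset.prod_mul_distrib]
    refine Finset.prod_congr rfl fun i _ => ?_
    rw [dq_act Q vt ω d e G Gi u z x h hG hGi i, mul_pow, mul_pow]
    ring
  · unfold FQ NQ
    rw [← Finset.prod_pow_eq_pow_sum, ← Finset.prod_mul_distrib]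
    refine Finset.prod_congr rfl fun i _ => ?_
    rw [dq_scale Q vt ω d e he x y j c h1 h2 i, mul_pow, ← pow_mul, mul_comm (a i)]

end Pool.Agent.K1H37.KQ
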